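import Pool.Agent.Q266.WS.Mean

/-!
# MP_c11bd2_pr: the equality cases of the two Gaussian maximum comparisons

`multivariateGaussian 0 R` is Mathlib's Gaussian measure on `EuclideanSpace ℝ (Fin m)` with mean `0`
and covariance matrix `R` (singular `R` allowed). `IsCorr R`: `R` is positive semidefinite with unit
diagonal. `Admissible R`: moreover `R - J / m` is positive semidefinite, `J` the all-ones matrix.
`Gtri m = m / (m - 1) * (1 - J / m)` is the Gram matrix of the regular simplex.
-/

set_option autoImplicit false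

open MeasureTheory ProbabilityTheory

namespace Pool.Agent.Results.MP_c11bd2_pr.EqualityCases

open Pool.Agent.Q266.WS

/-- **Main theorem.** For `m ≥ 2`:
(1) for every admissible `R` and every real `c`, `P (X_i ≤ c for all i) = Φ(c) ^ m` exactly when `R` is
the identity matrix, and otherwise `P (X_i ≤ c for all i) > Φ(c) ^ m`;
(2) for every correlation matrix `G` and every `l > 0`, `E exp (l max ξ_i)` is finite, it equals its value
for the regular simplex exactly when `G = Gtri m`, and otherwise it is smaller;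
(3) for every correlation matrix `G`, `E max ξ_i` equals its value for the regular simplex exactly when
`G = Gtri m`, and otherwise it is smaller. -/
theorem result (m : ℕ) (hm : 2 ≤ m) :
    (∀ R : Matrix (Fin m) (Fin m) ℝ, Admissible R → ∀ c : ℝ,
      (multivariateGaussian 0 R {x | ∀ i, x i ≤ c} = gaussianReal 0 1 (Set.Iic c) ^ m ↔ R = 1) ∧
      (R ≠ 1 → gaussianReal 0 1 (Set.Iic c) ^ m < multivariateGaussian 0 R {x | ∀ i, x i ≤ c})) ∧
    (∀ G : Matrix (Fin m) (Fin m) ℝ, IsCorr G → ∀ l : ℝ, 0 < l →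
      Integrable (fun x : EuclideanSpace ℝ (Fin m) => Real.exp (l * ⨆ i, x i))
        (multivariateGaussian 0 G) ∧
      ((∫ x, Real.exp (l * ⨆ i, x i) ∂(multivariateGaussian 0 G)) =
        (∫ x, Real.exp (l * ⨆ i, x i) ∂(multivariateGaussian 0 (Gtri m))) ↔ G = Gtri m) ∧
      (G ≠ Gtri m → (∫ x, Real.exp (l * ⨆ i, x i) ∂(multivariateGaussian 0 G)) <
        (∫ x, Real.exp (l * ⨆ i, x i) ∂(multivariateGaussian 0 (Gtri m))))) ∧
    (∀ G : Matrix (Fin m) (Fin m) ℝ, IsCorr G →
      Integrable (fun x : EuclideanSpace ℝ (Fin m) => ⨆ i, x i) (multivariateGaussian 0 G) ∧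
      ((∫ x, (⨆ i, x i) ∂(multivariateGaussian 0 G)) =
        (∫ x, (⨆ i, x i) ∂(multivariateGaussian 0 (Gtri m))) ↔ G = Gtri m) ∧
      (G ≠ Gtri m → (∫ x, (⨆ i, x i) ∂(multivariateGaussian 0 G)) <
        (∫ x, (⨆ i, x i) ∂(multivariateGaussian 0 (Gtri m))))) := by
  have hm0 : 0 < m := by omega
  refine ⟨fun R hR c => ⟨⟨fun h => ?_, fun h => ?_⟩, fun hne => strict_R hm0 R hR hne c⟩,
    fun G hG l hl => ⟨exp_int hm0 G hG l, ⟨fun h => ?_, fun h => ?_⟩, fun hne => mgf_G hm G hG hne l hl⟩,
    fun G hG => ⟨max_int hm0 G hG, ⟨fun h => ?_, fun h => ?_⟩, fun hne => mean_G hm G hG hne⟩⟩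
  · by_contra hne
    exact (strict_R hm0 R hR hne c).ne h.symm
  · rw [h]
    exact eq_one c
  · by_contra hne
    exact (mgf_G hm G hG hne l hl).ne h
  · rw [h]
  · by_contra hne
    exact (mean_G hm G hG hne).ne h
  · rw [h]

end Pool.Agent.Results.MP_c11bd2_pr.EqualityCases
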